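import Pool.Agent.Helper65.CS.Goals2

/-!
# Packet CS-RST: restriction of decision lists
-/

namespace Pool.Agent.Helper4.CS

open Pool.Agent.Helper81.CC Pool.Agent.Helper78.DT Pool.Agent.Helper51.ZP Pool.Agent.Helper65.CS

theorem ovr_mem {n : ℕ} (s : List (ℕ × Bool)) (hs : (s.map Prod.fst).Nodup) (x : Fin n → Bool)
    (v : Fin n) (b : Bool) (h : ((v : ℕ), b) ∈ s) : ovr s x v = b := by
  have hinj := List.inj_on_of_nodup_map hs
  unfold ovr
  cases b with
  | true => simp [h]
  | false =>
    have h1 : ((v : ℕ), true) ∉ s := by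
      intro h2
      have := hinj h2 h rfl
      simp at this
    simp [h, h1]

theorem ovr_not {n : ℕ} (s : List (ℕ × Bool)) (x : Fin n → Bool)
    (v : Fin n) (h : ∀ b, ((v : ℕ), b) ∉ s) : ovr s x v = x v := by
  unfold ovr
  simp [h true, h false]

theorem entry_iff {n : ℕ} (s : List (ℕ × Bool)) (hs : (s.map Prod.fst).Nodup)
    (hn : ∀ p ∈ s, p.1 < n) (x : Fin n → Bool) (p : ℕ × Bool)
    (h0 : (p.1, !p.2) ∉ s) :
    ((if h : p.1 < n then ovr s x ⟨p.1, h⟩ else false) = p.2) ↔
      (p ∉ s → (if h : p.1 < n then x ⟨p.1, h⟩ else false) = p.2) := by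
  by_cases hp : p ∈ s
  · have h1 := hn p hp
    have h2 := ovr_mem s hs x ⟨p.1, h1⟩ p.2 hp
    simp only [h1, dite_true, h2, hp, not_true_eq_false, false_imp_iff]
  · by_cases h1 : p.1 < n
    · have h2 : ovr s x ⟨p.1, h1⟩ = x ⟨p.1, h1⟩ := by
        apply ovr_not
        intro b hb
        have hb' : (p.1, b) ∈ s := hb
        by_cases hbp : b = p.2
        · apply hp
          have : p = (p.1, b) := by rw [hbp]
          rw [this]; exact hb'
        · apply h0
          have : (!p.2) = b := by
            cases b <;> cases h3 : p.2 <;> simp_all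
          rw [this]; exact hb'
      simp only [h1, dite_true, h2, hp, not_false_eq_true, true_imp_iff]
    · simp only [h1, dite_false, hp, not_false_eq_true, true_imp_iff]

theorem entry_false {n : ℕ} (s : List (ℕ × Bool)) (hs : (s.map Prod.fst).Nodup)
    (hn : ∀ p ∈ s, p.1 < n) (x : Fin n → Bool) (p : ℕ × Bool)
    (h0 : (p.1, !p.2) ∈ s) :
    ¬ ((if h : p.1 < n then ovr s x ⟨p.1, h⟩ else false) = p.2) := by
  have h1 : p.1 < n := hn (p.1, !p.2) h0
  have h2 := ovr_mem s hs x ⟨p.1, h1⟩ (!p.2) h0
  simp only [h1, dite_true, h2]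
  cases p.2 <;> simp

theorem rst_cons_pos (s : List (ℕ × Bool)) (e : List (ℕ × Bool) × Bool) (F : DList)
    (h : e.1.all (fun p => !s.contains (p.1, !p.2)) = true) :
    rst s (e :: F) = (e.1.filter (fun p => !s.contains p), e.2) :: rst s F := by
  unfold rst
  rw [List.filter_cons_of_pos (by simpa using h), List.map_cons]

theorem rst_cons_neg (s : List (ℕ × Bool)) (e : List (ℕ × Bool) × Bool) (F : DList)
    (h : ¬ e.1.all (fun p => !s.contains (p.1, !p.2)) = true) :
    rst s (e :: F) = rst s F := by
  unfold rst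
  rw [List.filter_cons_of_neg (by simpa using h)]

theorem rst_val {n : ℕ} (s : List (ℕ × Bool)) (F : DList) (x : Fin n → Bool)
    (hs : (s.map Prod.fst).Nodup) (hn : ∀ p ∈ s, p.1 < n) :
    DList.val x (rst s F) = DList.val (ovr s x) F := by
  induction F with
  | nil => simp [rst, DList.val]
  | cons e F ih =>
    by_cases h : e.1.all (fun p => !s.contains (p.1, !p.2)) = true
    · rw [rst_cons_pos s e F h]
      have h' : ∀ p ∈ e.1, (p.1, !p.2) ∉ s := by
        intro p hp
        have := List.all_eq_true.mp h p hp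
        simpa using this
      simp only [DList.val, ih]
      have key : (∀ p ∈ e.1.filter (fun p => !s.contains p),
          (if h : p.1 < n then x ⟨p.1, h⟩ else false) = p.2) ↔
          (∀ p ∈ e.1, (if h : p.1 < n then ovr s x ⟨p.1, h⟩ else false) = p.2) := by
        constructor
        · intro H p hp
          rw [entry_iff s hs hn x p (h' p hp)]
          intro hps
          apply H p
          rw [List.mem_filter]
          exact ⟨hp, by simpa using hps⟩
        · intro H p hp
          rw [List.mem_filter] at hp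
          exact (entry_iff s hs hn x p (h' p hp.1)).mp (H p hp.1) (by simpa using hp.2)
      by_cases hk : (∀ p ∈ e.1, (if h : p.1 < n then ovr s x ⟨p.1, h⟩ else false) = p.2)
      · rw [if_pos hk, if_pos (key.mpr hk)]
      · rw [if_neg hk, if_neg (fun h => hk (key.mp h))]
    · rw [rst_cons_neg s e F h, ih]
      simp only [DList.val]
      rw [if_neg]
      intro H
      apply h
      rw [List.all_eq_true]
      intro p hp
      by_contra hc
      have hc' : (p.1, !p.2) ∈ s := by simpa using hc
      exact entry_false s hs hn x p hc' (H p hp)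

theorem rst_nf (n W : ℕ) (s : List (ℕ × Bool)) (F : DList) (h : NF n W F) :
    NF n W (rst s F) ∧ (rst s F).length ≤ F.length := by
  constructor
  · intro e he
    unfold rst at he
    rw [List.mem_map] at he
    obtain ⟨e', he', rfl⟩ := he
    obtain ⟨h1, h2, h3⟩ := h e' (List.mem_of_mem_filter he')
    refine ⟨h1.filter _, (List.length_filter_le _ _).trans h2, ?_⟩
    intro p hp
    have hp' := List.mem_of_mem_filter hp
    refine ⟨(h3 p hp').1, fun hc => (h3 p hp').2 (List.mem_of_mem_filter hc)⟩
  · unfold rst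
    rw [List.length_map]
    exact List.length_filter_le _ _

theorem rst : Pool.Agent.Helper65.CS.RstStmt :=
  ⟨fun n W s F h => rst_nf n W s F h, fun _ s F x hs hn => rst_val s F x hs hn⟩

end Pool.Agent.Helper4.CS
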